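import Pool.Agent.L7h3.GL.Stm

/-!
# Project GL (helper3), part DEL (helper56)
-/

set_option autoImplicit false

namespace Pool.Agent.L7h56.GL

open Pool.Agent.L7h3.GL

section

variable {L : Type} [CompleteLattice L]

theorem le_last (l : List L) (g : L) (hc : l.IsChain (· ⋖ ·))
    (hg : l.getLast? = some g) : ∀ z ∈ l, z ≤ g := by
  have h0 : l.IsChain (· < ·) := hc.imp (fun _ _ h => h.lt)
  have h1 : l.Pairwise (· < ·) := List.isChain_iff_pairwise.1 h0
  obtain ⟨l', rfl⟩ : ∃ l', l = l' ++ [g] := ⟨l.dropLast, (List.dropLast_append_getLast? g hg).symm⟩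
  rw [List.pairwise_append] at h1
  intro z hz
  rcases List.mem_append.1 hz with h | h
  · exact (h1.2.2 z h g (by simp)).le
  · rw [List.mem_singleton] at h
    exact h.le

theorem gen_le {b : L} {T : Set L} {z : L} (h : Gen b T z) : b ≤ z := by
  unfold Gen at h
  rw [h]
  exact le_sup_left

theorem gen_mono {b : L} {T T' : Set L} {z : L} (hT : T' ⊆ T) (h : Gen b T' z) : Gen b T z := by
  have hb := gen_le h
  apply le_antisymm
  · have h1 : z = b ⊔ sSup {a | a ∈ T' ∧ a ≤ z} := h
    conv_lhs => rw [h1]
    refine sup_le_sup_left (sSup_le_sSup ?_) b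
    intro a ha
    exact ⟨hT ha.1, ha.2⟩
  · exact sup_le hb (sSup_le (fun a ha => ha.2))

theorem gen_ne {b q : L} {T' : Set L} {z : L} (hT : ∀ a ∈ T', b ⋖ a) (hq : b ⋖ q) (hqT : q ∉ T')
    (h : Gen b T' z) : z ≠ q := by
  rintro rfl
  have h1 : z = b ⊔ sSup {a | a ∈ T' ∧ a ≤ z} := h
  have h2 : {a | a ∈ T' ∧ a ≤ z} = (∅ : Set L) := by
    ext a
    simp only [Set.mem_ofPred_eq, Set.mem_empty_iff_false, iff_false, not_and]
    intro ha hle
    rcases hle.lt_or_eq with h3 | h3
    · exact hq.2 (hT a ha).lt h3
    · rw [h3] at ha; exact hqT ha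
  rw [h2, sSup_empty, sup_bot_eq] at h1
  exact hq.lt.ne h1.symm

end

theorem s_DEL : S_DEL := by
  intro L _ _ ρ hρ b q T S hCv hqT hqS _ H
  have hTe : (T.erase q : Finset L) ⊆ T := Finset.erase_subset _ _
  have hTs : ((T.erase q : Finset L) : Set L) ⊆ (T : Set L) := by exact_mod_cast hTe
  have hbq : b ⋖ q := hCv q hqT
  have hCv' : ∀ a ∈ ((T.erase q : Finset L) : Set L), b ⋖ a := fun a ha => hCv a (hTs ha)
  have hqT' : q ∉ ((T.erase q : Finset L) : Set L) := by simp
  set T' : Set L := ((T.erase q : Finset L) : Set L) with hT'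
  have htt : tp b (T : Set L) = tp b T' ⊔ q := by
    have h1 : (T : Set L) = insert q T' := by
      rw [hT', ← Finset.coe_insert, Finset.insert_erase hqT]
    unfold tp
    rw [h1, sSup_insert, sup_comm q, sup_assoc]
  have hle' : ∀ a ∈ T', a ≤ tp b T' := fun a ha => le_trans (le_sSup ha) le_sup_right
  have hbt' : b ≤ tp b T' := le_sup_left
  have hcard1 : (S.erase q).card + 1 = S.card := Finset.card_erase_add_one hqS
  by_cases hqt : q ≤ tp b T'
  · -- the top does not change
    have he : tp b (T : Set L) = tp b T' := by rw [htt]; exact sup_eq_left.2 hqt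
    refine ⟨S.erase q, hcard1.le, ?_⟩
    intro a ha l hl hg
    obtain ⟨z, hz, hzS⟩ := H a (hTe ha) l (by rw [he]; exact hl) (fun z hz => gen_mono hTs (hg z hz))
    exact ⟨z, hz, Finset.mem_erase.2 ⟨gen_ne hCv' hbq hqT' (hg z hz), hzS⟩⟩
  have hcov : tp b T' ⋖ tp b (T : Set L) := by
    rw [htt]
    exact hρ.sm b q (tp b T') hbq hbt' hqt
  by_cases htS : tp b T' ∈ S
  · -- the projection
    let π : L → L := fun z => b ⊔ sSup {a | a ∈ T' ∧ a ≤ z}
    refine ⟨((S.erase q).erase (tp b T')).image π, ?_, ?_⟩
    · have h1 : (((S.erase q).erase (tp b T')).image π).card ≤ ((S.erase q).erase (tp b T')).card :=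
        Finset.card_image_le
      have h2 : ((S.erase q).erase (tp b T')).card ≤ (S.erase q).card :=
        Finset.card_le_card (Finset.erase_subset _ _)
      omega
    intro a ha l hl hg
    obtain ⟨hhead, hchain, hlast⟩ := hl
    have hne : l ≠ [] := by
      rintro rfl
      simp at hhead
    obtain ⟨g, hgl⟩ : ∃ g, l.getLast? = some g := ⟨l.getLast hne, List.getLast?_eq_getLast_of_ne_nil hne⟩
    have hgt := hlast g hgl
    have hgmem : g ∈ l := List.mem_of_getLast? hgl
    have hleg := le_last l g hchain hgl
    have ham : a ∈ l := List.mem_of_head? hhead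
    have hbg : b < g := lt_of_lt_of_le (hCv' a ha).lt (hleg a ham)
    have hqg : ¬ q ≤ g := fun h => hqt (le_trans h hgt.le)
    have hc1 : g ⋖ g ⊔ q := hρ.sm b q g hbq hbg.le hqg
    have hnt : ¬ tp b T' ≤ g ⊔ q := by
      intro h
      rcases h.lt_or_eq with h3 | h3
      · exact hc1.2 hgt.lt h3
      · exact hqt (by rw [h3]; exact le_sup_right)
    have hc2 : g ⊔ q ⋖ tp b (T : Set L) := by
      have h4 := hρ.sm g (tp b T') (g ⊔ q) hgt le_sup_left hnt
      have h5 : g ⊔ q ⊔ tp b T' = tp b (T : Set L) := by
        rw [htt]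
        apply le_antisymm
        · exact sup_le (sup_le (le_trans hgt.le le_sup_left) le_sup_right) le_sup_left
        · exact sup_le le_sup_right (le_trans le_sup_right le_sup_left)
      rwa [h5] at h4
    have hgen : Gen b (T : Set L) (g ⊔ q) := by
      apply le_antisymm
      · apply sup_le
        · have h6 : g = b ⊔ sSup {a | a ∈ T' ∧ a ≤ g} := hg g hgmem
          conv_lhs => rw [h6]
          refine sup_le_sup_left (sSup_le_sSup ?_) b
          intro c hc
          exact ⟨hTs hc.1, le_trans hc.2 le_sup_left⟩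
        · have h7 : q ∈ {a | a ∈ (T : Set L) ∧ a ≤ g ⊔ q} := ⟨hqT, le_sup_right⟩
          exact le_trans (le_sSup h7) le_sup_right
      · exact sup_le (le_trans hbg.le le_sup_left) (sSup_le (fun a ha => ha.2))
    obtain ⟨z, hz, hzS⟩ := H a (hTe ha) (l ++ [g ⊔ q]) ⟨by
        rw [List.head?_append_of_ne_nil _ hne]; exact hhead, by
        rw [List.isChain_append]
        refine ⟨hchain, List.isChain_singleton _, ?_⟩
        intro x hx y hy
        rw [hgl, Option.mem_def, Option.some_inj] at hx
        rw [List.head?_cons, Option.mem_def, Option.some_inj] at hy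
        rw [← hx, ← hy]
        exact hc1, by
        intro z hz
        rw [List.getLast?_append, List.getLast?_singleton] at hz
        have hz' : g ⊔ q = z := by simpa using hz
        rw [← hz']
        exact hc2⟩ (by
      intro z hz
      rcases List.mem_append.1 hz with h | h
      · exact gen_mono hTs (hg z h)
      · rw [List.mem_singleton] at h
        rw [h]; exact hgen)
    rcases List.mem_append.1 hz with h | h
    · refine ⟨z, h, ?_⟩
      rw [Finset.mem_image]
      refine ⟨z, ?_, (hg z h).symm⟩
      rw [Finset.mem_erase, Finset.mem_erase]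
      refine ⟨?_, gen_ne hCv' hbq hqT' (hg z h), hzS⟩
      exact (lt_of_le_of_lt (hleg z h) hgt.lt).ne
    · rw [List.mem_singleton] at h
      subst h
      refine ⟨g, hgmem, ?_⟩
      rw [Finset.mem_image]
      refine ⟨g ⊔ q, ?_, ?_⟩
      · rw [Finset.mem_erase, Finset.mem_erase]
        refine ⟨?_, ?_, hzS⟩
        · intro h7
          exact hnt h7.ge
        · intro h7
          have h8 : g ≤ q := by rw [← h7]; exact le_sup_left
          have h9 : g < q := lt_of_le_of_ne h8 (fun h => hqg h.ge)
          exact hbq.2 hbg h9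
      · show b ⊔ sSup {a | a ∈ T' ∧ a ≤ g ⊔ q} = g
        apply le_antisymm
        · apply sup_le hbg.le
          apply sSup_le
          rintro c ⟨hcT, hcle⟩
          by_contra hcg
          have h10 : g < g ⊔ c := lt_of_le_of_ne le_sup_left (fun h => hcg (by rw [h]; exact le_sup_right))
          have h11 : g ⊔ c ≤ g ⊔ q := sup_le le_sup_left hcle
          have h12 : g ⊔ c = g ⊔ q := by
            rcases h11.lt_or_eq with h | h
            · exact absurd h (hc1.2 h10)
            · exact h
          apply hqt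
          calc q ≤ g ⊔ q := le_sup_right
            _ = g ⊔ c := h12.symm
            _ ≤ tp b T' := sup_le hgt.le (hle' c hcT)
        · have h6 : g = b ⊔ sSup {a | a ∈ T' ∧ a ≤ g} := hg g hgmem
          conv_lhs => rw [h6]
          refine sup_le_sup_left (sSup_le_sSup ?_) b
          intro c hc
          exact ⟨hc.1, le_trans hc.2 le_sup_left⟩
  · -- append the top
    refine ⟨S.erase q, hcard1.le, ?_⟩
    intro a ha l hl hg
    obtain ⟨hhead, hchain, hlast⟩ := hl
    have hne : l ≠ [] := by
      rintro rfl
      simp at hhead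
    obtain ⟨g, hgl⟩ : ∃ g, l.getLast? = some g := ⟨l.getLast hne, List.getLast?_eq_getLast_of_ne_nil hne⟩
    have hgt := hlast g hgl
    have hgen : Gen b T' (tp b T') := by
      apply le_antisymm
      · refine sup_le_sup_left (sSup_le_sSup ?_) b
        intro c hc
        exact ⟨hc, hle' c hc⟩
      · exact sup_le hbt' (sSup_le (fun c hc => hc.2))
    obtain ⟨z, hz, hzS⟩ := H a (hTe ha) (l ++ [tp b T']) ⟨by
        rw [List.head?_append_of_ne_nil _ hne]; exact hhead, by
        rw [List.isChain_append]
        refine ⟨hchain, List.isChain_singleton _, ?_⟩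
        intro x hx y hy
        rw [hgl, Option.mem_def, Option.some_inj] at hx
        rw [List.head?_cons, Option.mem_def, Option.some_inj] at hy
        rw [← hx, ← hy]
        exact hgt, by
        intro z hz
        rw [List.getLast?_append, List.getLast?_singleton] at hz
        have hz' : tp b T' = z := by simpa using hz
        rw [← hz']
        exact hcov⟩ (by
      intro z hz
      rcases List.mem_append.1 hz with h | h
      · exact gen_mono hTs (hg z h)
      · rw [List.mem_singleton] at h
        rw [h]; exact gen_mono hTs hgen)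
    rcases List.mem_append.1 hz with h | h
    · exact ⟨z, h, Finset.mem_erase.2 ⟨gen_ne hCv' hbq hqT' (hg z h), hzS⟩⟩
    · rw [List.mem_singleton] at h
      rw [h] at hzS
      exact absurd hzS htS

end Pool.Agent.L7h56.GL
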